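import Pool.Agent.Q50.SP.Digits

/-!
# The `k`-error linear complexity of the binary digits of `√2`

The `k`-error linear complexity of the first `L` digits of a number is the least order of a linear
recurrence over `ℚ` which is satisfied by the digits after at most `k` of them have been changed.
For random digits it is about `L / 2` for every fixed `k`.

For the binary digits of `√2` it is at least `(1 / (k + 2) - o(1)) L`, for every fixed `k`. The same
holds in every base for all irrational real algebraic numbers. (For `k = 0` this is Ridout's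
theorem; cutting the digits at the changed places gives `1 / (2 (k + 1))` only.)

Method. A recurrence of order `m` of the changed digits gives an integer `q` of size about `b ^ m`
for which `q (ξ + ∑ a_i b ^ (-n_i))` is at distance about `b ^ (m - L)` from the next integer, where
the `n_i` are the `k` changed places. The subspace theorem is applied to the integer vectors
`(b ^ N q, b ^ (N - n_1) q, …, b ^ (N - n_k) q, b ^ N p)` (`Pool.Agent.Q50.SP.Joint`): for every
`δ > 0`, all large `N`, all `n_i ≤ N`, all integers `a_i` from a fixed finite set and all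
`1 ≤ q ≤ b ^ N` we have `|q (ξ + ∑ a_i b ^ (-n_i)) - p| > q ^ (-(k + 1)) b ^ (-δ N)`.
-/

set_option autoImplicit false

namespace Pool.Agent.Results.MP_0308e6_nt.ErrorComplexity

open Finset

/-- the `i`-th digit of `x` after the point in base `b` -/
noncomputable def digit (b : ℕ) (x : ℝ) (i : ℕ) : ℤ := ⌊x * (b : ℝ) ^ i⌋ % (b : ℤ)

/-- The terms `s_1, …, s_L` satisfy a linear recurrence of order `m` over `ℚ`:
`s_(i+m) = c_0 s_i + … + c_(m-1) s_(i+m-1)` for `1 ≤ i ≤ L - m`. -/
def Recurrence (s : ℕ → ℤ) (L m : ℕ) : Prop :=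
  ∃ c : ℕ → ℚ, ∀ i : ℕ, 1 ≤ i → i + m ≤ L →
    (s (i + m) : ℚ) = ∑ j ∈ range m, c j * (s (i + j) : ℚ)

/-- the `k`-error linear complexity of the first `L` digits of `x` in base `b`: the least order of
a recurrence satisfied by the first `L` terms of a sequence of integers between `-b` and `b` which
differs from the sequence of digits in at most `k` of the places `1, …, L` -/
noncomputable def errorComplexity (b : ℕ) (x : ℝ) (k L : ℕ) : ℕ :=
  sInf {m | ∃ s : ℕ → ℤ, (∀ i, |s i| ≤ b) ∧
    ((Icc 1 L).filter fun i => s i ≠ digit b x i).card ≤ k ∧ Recurrence s L m}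

lemma dig_abs (b : ℕ) (hb : 2 ≤ b) (x : ℝ) (i : ℕ) : |digit b x i| ≤ b := by
  unfold digit
  have hb0 : (0 : ℤ) < b := by exact_mod_cast (by omega : 0 < b)
  rw [abs_of_nonneg (Int.emod_nonneg _ hb0.ne')]
  exact (Int.emod_lt_of_pos _ hb0).le

/-- the infimum is attained -/
lemma attained (b : ℕ) (hb : 2 ≤ b) (x : ℝ) (k L : ℕ) :
    ∃ s : ℕ → ℤ, (∀ i, |s i| ≤ b) ∧ ((Icc 1 L).filter fun i => s i ≠ digit b x i).card ≤ k ∧
      Recurrence s L (errorComplexity b x k L) := by
  refine Nat.sInf_mem (s := {m | ∃ s : ℕ → ℤ, (∀ i, |s i| ≤ b) ∧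
    ((Icc 1 L).filter fun i => s i ≠ digit b x i).card ≤ k ∧ Recurrence s L m}) ?_
  exact ⟨L, digit b x, dig_abs b hb x, by simp, fun _ => 0, fun i h1 h2 => by omega⟩

/-- For every base `b ≥ 2`, every irrational real algebraic number `ξ` and every `k`, the `k`-error
linear complexity of the first `L` digits of `ξ` in base `b` is at least `(1 / (k + 2) - ε) L` for
all large `L`; in particular this holds for the binary digits of `√2`. -/
theorem result :
    (∀ (k : ℕ) (ε : ℝ), 0 < ε → ∃ L₀ : ℕ, ∀ L : ℕ, L₀ ≤ L →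
      (1 / ((k : ℝ) + 2) - ε) * L ≤ errorComplexity 2 (Real.sqrt 2) k L) ∧
    ∀ (b : ℕ) (_ : 2 ≤ b) (ξ : ℝ) (_ : IsAlgebraic ℚ ξ) (_ : Irrational ξ) (k : ℕ) (ε : ℝ),
      0 < ε → ∃ L₀ : ℕ, ∀ L : ℕ, L₀ ≤ L →
        (1 / ((k : ℝ) + 2) - ε) * L ≤ errorComplexity b ξ k L := by
  have main : ∀ (b : ℕ) (_ : 2 ≤ b) (ξ : ℝ) (_ : IsAlgebraic ℚ ξ) (_ : Irrational ξ) (k : ℕ)
      (ε : ℝ), 0 < ε → ∃ L₀ : ℕ, ∀ L : ℕ, L₀ ≤ L →
        (1 / ((k : ℝ) + 2) - ε) * L ≤ errorComplexity b ξ k L := by
    intro b hb ξ halg hirr k ε hε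
    obtain ⟨L₀, hL₀⟩ := Pool.Agent.Q50.SP.main b hb 1 le_rfl (fun _ => ξ) (fun _ => halg)
      (by
        intro d c hd
        rw [Fin.sum_univ_one] at hd
        by_contra hne
        have h0 : d 0 ≠ 0 := by
          intro h
          apply hne
          funext i
          rw [Subsingleton.elim i 0]
          exact h
        apply hirr
        refine ⟨c / d 0, ?_⟩
        have h1 : (d 0 : ℝ) ≠ 0 := by exact_mod_cast h0
        push_cast
        rw [← hd]
        field_simp) k ε hε
    refine ⟨L₀, fun L hL => ?_⟩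
    obtain ⟨s, hs, hE, c, hc⟩ := attained b hb ξ k L
    have h := hL₀ L hL (errorComplexity b ξ k L) (fun _ i => s (i + 1)) (fun _ i => hs _)
      ⟨((Icc 1 L).filter fun i => s i ≠ digit b ξ i).image (· - 1),
        Finset.card_image_le.trans hE, fun i hi hiE j => by
          by_contra hne
          apply hiE
          rw [mem_image]
          exact ⟨i + 1, by
            rw [mem_filter, mem_Icc]
            exact ⟨⟨by omega, by omega⟩, hne⟩, by omega⟩⟩
      ⟨c, fun j i hi => by
        have := hc (i + 1) (by omega) (by omega)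
        rw [show i + errorComplexity b ξ k L + 1 = i + 1 + errorComplexity b ξ k L by ring, this]
        refine Finset.sum_congr rfl fun l _ => ?_
        rw [show i + l + 1 = i + 1 + l by ring]⟩
    have e : ((1 : ℕ) : ℝ) / (((1 : ℕ) : ℝ) + k + 1) = 1 / ((k : ℝ) + 2) := by
      push_cast
      congr 1
      ring
    rw [e] at h
    exact h
  refine ⟨fun k ε hε => ?_, main⟩
  have h2 : IsAlgebraic ℚ (Real.sqrt 2) := by
    refine IsAlgebraic.of_pow (n := 2) (by norm_num) ?_
    rw [Real.sq_sqrt (by norm_num)]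
    exact_mod_cast isAlgebraic_natCast (R := ℚ) (A := ℝ) 2
  exact main 2 le_rfl _ h2 irrational_sqrt_two k ε hε

end Pool.Agent.Results.MP_0308e6_nt.ErrorComplexity
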