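import Pool.Agent.W47.LC.Two
import Pool.Agent.W47.LC.EBound

/-!
# The linear complexity and the Hankel matrices of the binary digits of `√2`

The linear complexity over `ℚ` of the first `L` binary digits of `√2` is `L / 2 + O(√(L log L))`, and the
`n × n` Hankel matrix of these digits has rank at least `n - O(√(n log n))`; both statements hold in
every base, with a constant which does not depend on the base, and for all real quadratic irrationals
and for `e`.
-/

set_option autoImplicit false

namespace Pool.Agent.Results.MP_0308e6_nt.LinearComplexityAndHankelRanks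

open Finset Polynomial
open Pool.Agent.H831R3.LC (W W_eq)

/-- the `i`-th digit of `x` after the point in base `b` (for `x = √2`, `b = 2` these are the `b_k`) -/
noncomputable def digit (b : ℕ) (x : ℝ) (i : ℕ) : ℤ := ⌊x * (b : ℝ) ^ i⌋ % (b : ℤ)

/-- The first `L` digits `a_1, …, a_L` satisfy a linear recurrence of order `m` over `ℚ`:
`a_(i+m) = c_0 a_i + … + c_(m-1) a_(i+m-1)` for `1 ≤ i ≤ L - m`. -/
def Recurrence (b : ℕ) (x : ℝ) (L m : ℕ) : Prop :=
  ∃ c : ℕ → ℚ, ∀ i : ℕ, 1 ≤ i → i + m ≤ L →
    (digit b x (i + m) : ℚ) = ∑ j ∈ range m, c j * (digit b x (i + j) : ℚ)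

/-- the linear complexity over `ℚ` of the first `L` digits: the least order of a recurrence -/
noncomputable def linearComplexity (b : ℕ) (x : ℝ) (L : ℕ) : ℕ := sInf {m | Recurrence b x L m}

/-- the Hankel matrix with the rows `(a_i, a_(i+1), …, a_(i+n-1))`, `1 ≤ i ≤ n` -/
noncomputable def hankel (b : ℕ) (x : ℝ) (n : ℕ) : Matrix (Fin n) (Fin n) ℚ :=
  Matrix.of fun i j => (digit b x ((i : ℕ) + (j : ℕ) + 1) : ℚ)

/-- For some constant `C`, for all bases `b ≥ 2`: the linear complexity of the first `L` digits differs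
from `L / 2` by at most `C √(L log (L + 1))`, for all `L`, and the `n × n` Hankel matrix of the digits
has rank at least `n - C √(n log (n + 1))`, for all `n`. -/
def NearlyRegular (x : ℝ) : Prop :=
  ∃ C : ℝ, ∀ b : ℕ, 2 ≤ b →
    (∀ L : ℕ, |(linearComplexity b x L : ℝ) - L / 2| ≤ C * Real.sqrt (L * Real.log (L + 1))) ∧
    (∀ n : ℕ, (n : ℝ) - C * Real.sqrt (n * Real.log (n + 1)) ≤ ((hankel b x n).rank : ℝ))

/-- independent columns -/
theorem rank_ge (b : ℕ) (x : ℝ) (n m : ℕ) (hmn : m + 1 ≤ n)
    (h : ∀ c : ℕ → ℚ, (∀ i, i + m < n + m →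
      ∑ j ∈ range (m + 1), c j * (Pool.Agent.H831R3.LC.dig x b (i + 1 + j) : ℚ) = 0) →
      ∀ j ≤ m, c j = 0) :
    m + 1 ≤ (hankel b x n).rank := by
  classical
  set E : (Fin (m + 1) → ℚ) →ₗ[ℚ] (Fin n → ℚ) :=
    Function.ExtendByZero.linearMap ℚ (Fin.castLE hmn) with hE
  have hinj : Function.Injective ((hankel b x n).mulVecLin ∘ₗ E) := by
    rw [← LinearMap.ker_eq_bot, LinearMap.ker_eq_bot']
    intro v hv
    set c : ℕ → ℚ := fun j => if hj : j < m + 1 then v ⟨j, hj⟩ else 0 with hc
    have h1 := h c (fun i hi => by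
      have hin : i < n := by omega
      have h2 := congrFun hv ⟨i, hin⟩
      rw [LinearMap.comp_apply, Matrix.mulVecLin_apply, Matrix.mulVec, dotProduct] at h2
      simp only [Pi.zero_apply] at h2
      have h3 : ∀ j : Fin n, (hankel b x n) ⟨i, hin⟩ j * E v j =
          (fun j : ℕ => if j < m + 1 then c j * (Pool.Agent.H831R3.LC.dig x b (i + 1 + j) : ℚ) else 0) j := by
        intro j
        by_cases hj : (j : ℕ) < m + 1
        · have h4 : E v j = v ⟨j, hj⟩ := by
            have h5 : j = Fin.castLE hmn ⟨j, hj⟩ := by ext; simp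
            rw [hE, Function.ExtendByZero.linearMap_apply]
            conv_lhs => rw [h5]
            exact (Fin.castLE_injective hmn).extend_apply v 0 ⟨j, hj⟩
          simp only [hj, if_true]
          rw [h4, hc]
          simp only [hj, dif_pos]
          rw [mul_comm]
          congr 1
          simp only [hankel, Matrix.of_apply, digit, Pool.Agent.H831R3.LC.dig]
          rw [show i + (j : ℕ) + 1 = i + 1 + j by ring]
        · have h4 : E v j = 0 := by
            rw [hE, Function.ExtendByZero.linearMap_apply]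
            rw [Function.extend_apply']
            · rfl
            · rintro ⟨a, ha⟩
              apply hj
              rw [← ha]
              simp only [Fin.val_castLE]
              exact a.2
          simp only [hj, if_false]
          rw [h4, mul_zero]
      rw [Finset.sum_congr rfl (fun j _ => h3 j)] at h2
      rw [Fin.sum_univ_eq_sum_range (fun j : ℕ => if j < m + 1 then
        c j * (Pool.Agent.H831R3.LC.dig x b (i + 1 + j) : ℚ) else 0) n, ← Finset.sum_filter] at h2
      rw [← h2]
      apply Finset.sum_congr _ fun _ _ => rfl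
      ext j
      simp only [mem_filter, mem_range]
      omega)
    ext j
    have h2 := h1 j (by have := j.2; omega)
    rw [hc] at h2
    simp only [j.2, dif_pos] at h2
    exact h2
  have h1 : Module.finrank ℚ (LinearMap.range ((hankel b x n).mulVecLin ∘ₗ E)) = m + 1 := by
    rw [LinearMap.finrank_range_of_inj hinj]
    simp
  rw [Matrix.rank, ← h1]
  apply Submodule.finrank_mono
  exact LinearMap.range_comp_le_range _ _

/-- the criterion -/
theorem main (x : ℝ) (A : ℕ) (c0 : ℝ) (hc0 : 0 < c0)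
    (hx : ∀ q : ℕ, 1 ≤ q → ∀ p : ℤ, c0 ≤ (q : ℝ) * (1 + Real.log q) ^ A * |q * x - p|) :
    NearlyRegular x := by
  obtain ⟨C₁, h₁⟩ := Pool.Agent.W47.LC.two x A c0 hc0 hx
  obtain ⟨C, hC1, hC⟩ := Pool.Agent.W47.LC.main2 x A c0 hc0 hx
  refine ⟨max C₁ (4 * C + 2), fun b hb => ⟨fun L => ?_, fun n => ?_⟩⟩
  · refine (h₁ L b hb).trans ?_
    exact mul_le_mul_of_nonneg_right (le_max_left _ _) (Real.sqrt_nonneg _)
  · rcases Nat.eq_zero_or_pos n with h0 | hn
    · subst h0
      simp
    have hnR : (1 : ℝ) ≤ n := by exact_mod_cast hn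
    have hl2 := Real.log_two_gt_d9
    have hl : 1 / 2 ≤ Real.log ((n : ℝ) + 1) := by
      have := Real.log_le_log (by norm_num) (by linarith : (2 : ℝ) ≤ n + 1)
      linarith
    obtain ⟨s, hs⟩ : ∃ s : ℝ, s = Real.sqrt (n * Real.log (n + 1)) := ⟨_, rfl⟩
    have hs0 : 0 ≤ s := by rw [hs]; exact Real.sqrt_nonneg _
    have hs12 : 1 / 2 ≤ s := by
      rw [hs]
      apply Real.le_sqrt_of_sq_le
      nlinarith
    rw [← hs]
    have hmax : (4 * C + 2) * s ≤ max C₁ (4 * C + 2) * s :=
      mul_le_mul_of_nonneg_right (le_max_right _ _) hs0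
    rcases le_or_gt ((n : ℝ) - (4 * C + 2) * s) 0 with h0 | h0
    · have : (0 : ℝ) ≤ ((hankel b x n).rank : ℝ) := Nat.cast_nonneg _
      linarith
    obtain ⟨m, hm⟩ : ∃ m : ℕ, m = ⌊(n : ℝ) - (4 * C + 1) * s⌋₊ := ⟨_, rfl⟩
    have hy0 : 0 ≤ (n : ℝ) - (4 * C + 1) * s := by nlinarith
    have hm1 : (m : ℝ) ≤ (n : ℝ) - (4 * C + 1) * s := by rw [hm]; exact Nat.floor_le hy0
    have hm2 : (n : ℝ) - (4 * C + 1) * s < m + 1 := by rw [hm]; exact Nat.lt_floor_add_one _
    have hmn : m + 1 ≤ n := by
      have : (m : ℝ) < n := by nlinarith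
      have : m < n := by exact_mod_cast this
      omega
    have hmnR : (m : ℝ) + 1 ≤ n := by exact_mod_cast hmn
    have hsq : Real.sqrt (((n + m : ℕ) : ℝ) * Real.log (((n + m : ℕ) : ℝ) + 1)) ≤ 2 * s := by
      rw [hs]
      apply Real.sqrt_le_iff.2
      refine ⟨by positivity, ?_⟩
      rw [mul_pow, Real.sq_sqrt (by positivity)]
      push_cast
      have h2 : Real.log ((n : ℝ) + m + 1) ≤ 2 * Real.log (n + 1) := by
        rw [← Real.log_rpow (by linarith), Real.rpow_two]
        apply Real.log_le_log (by positivity)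
        nlinarith
      have h3 : 0 ≤ Real.log ((n : ℝ) + m + 1) := Real.log_nonneg (by
        have : (0 : ℝ) ≤ m := Nat.cast_nonneg m
        linarith)
      calc ((n : ℝ) + m) * Real.log (n + m + 1) ≤ (2 * n) * Real.log (n + m + 1) :=
            mul_le_mul_of_nonneg_right (by linarith) h3
        _ ≤ (2 * n) * (2 * Real.log (n + 1)) := mul_le_mul_of_nonneg_left h2 (by positivity)
        _ = 2 ^ 2 * (n * Real.log (n + 1)) := by ring
    have key := rank_ge b x n m hmn (Pool.Agent.W47.LC.ratRel x b (n + m) m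
      (hC (n + m) (by omega) b hb m (by
        have h4 := mul_le_mul_of_nonneg_left hsq (by linarith : (0 : ℝ) ≤ C)
        push_cast at h4 ⊢
        nlinarith)))
    have key' : ((m : ℝ) + 1) ≤ ((hankel b x n).rank : ℝ) := by exact_mod_cast key
    nlinarith

/-- Liouville's inequality for quadratic irrationals -/
theorem liouville (x : ℝ) (hx : Irrational x) (u v w : ℤ) (hu : u ≠ 0)
    (h : (u : ℝ) * x ^ 2 + v * x + w = 0) :
    ∃ c : ℝ, 0 < c ∧ ∀ q : ℕ, 1 ≤ q → ∀ p : ℤ, c ≤ (q : ℝ) * |q * x - p| := by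
  set f : ℤ[X] := C u * X ^ 2 + C v * X + C w with hf
  have hd : f.natDegree = 2 := natDegree_quadratic hu
  have f0 : f ≠ 0 := by
    intro h0
    rw [h0, natDegree_zero] at hd
    omega
  obtain ⟨a, ha, hL⟩ := Liouville.exists_pos_real_of_irrational_root hx f0 (by
    rw [hf]
    simp only [Polynomial.map_add, Polynomial.map_mul, Polynomial.map_pow, Polynomial.map_C,
      Polynomial.map_X, eval_add, eval_mul, eval_pow, eval_C, eval_X]
    simpa using h)
  refine ⟨1 / a, by positivity, fun q hq p => ?_⟩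
  have h1 := hL p (q - 1)
  have hqR : (0 : ℝ) < q := by exact_mod_cast hq
  have e1 : (((q - 1 : ℕ) : ℝ) + 1) = q := by
    rw [Nat.cast_sub hq]
    push_cast
    ring
  rw [e1, hd] at h1
  have e2 : |x - p / q| = |q * x - p| / q := by
    rw [← abs_of_pos hqR, ← abs_div, abs_of_pos hqR]
    congr 1
    field_simp
  rw [e2] at h1
  rw [div_le_iff₀ ha]
  calc (1 : ℝ) ≤ (q : ℝ) ^ 2 * (|q * x - p| / q * a) := h1
    _ = (q : ℝ) * |q * x - p| * a := by field_simp

/-- (1) For `√2` there is a constant `C` such that in all bases `b ≥ 2` (for instance `b = 2`) the linear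
complexity over `ℚ` of the first `L` digits differs from `L / 2` by at most `C √(L log (L + 1))` for all
`L`, and the Hankel matrix `(a_(i+j-1))`, `1 ≤ i, j ≤ n`, of the digits has rank at least
`n - C √(n log (n + 1))` for all `n`.

(2) The same holds for every real quadratic irrational.

(3) The same holds for `e`, and for every real number `x` such that for some natural number `A` and some
`c > 0` one has `|q x - p| ≥ c / (q (1 + log q)^A)` for all integers `p` and `q ≥ 1`. -/
theorem result :
    NearlyRegular (Real.sqrt 2) ∧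
    (∀ x : ℝ, Irrational x → (∃ u v w : ℤ, u ≠ 0 ∧ (u : ℝ) * x ^ 2 + v * x + w = 0) →
      NearlyRegular x) ∧
    (NearlyRegular (Real.exp 1) ∧
      ∀ (x : ℝ) (A : ℕ) (c : ℝ), 0 < c →
        (∀ q : ℕ, 1 ≤ q → ∀ p : ℤ, c ≤ (q : ℝ) * (1 + Real.log q) ^ A * |q * x - p|) →
        NearlyRegular x) := by
  have hq : ∀ x : ℝ, Irrational x →
      (∃ u v w : ℤ, u ≠ 0 ∧ (u : ℝ) * x ^ 2 + v * x + w = 0) → NearlyRegular x := by
    rintro x hx ⟨u, v, w, hu, h⟩
    obtain ⟨c, hc, hq⟩ := liouville x hx u v w hu h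
    refine main x 0 c hc (fun q hq1 p => ?_)
    rw [pow_zero, mul_one]
    exact hq q hq1 p
  refine ⟨?_, hq, main (Real.exp 1) 1 (1 / 1000) (by norm_num) Pool.Agent.W47.LC.eBound,
    fun x A c hc hx => main x A c hc hx⟩
  refine hq _ irrational_sqrt_two ⟨1, 0, -2, one_ne_zero, ?_⟩
  have := Real.sq_sqrt (by norm_num : (0 : ℝ) ≤ 2)
  push_cast
  rw [this]
  norm_num

end Pool.Agent.Results.MP_0308e6_nt.LinearComplexityAndHankelRanks
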