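import Pool.Agent.H648R2.T.Machine

/-!
# The binary digits of the square root of two and sums of outputs of stack automata

A stack automaton (`StackAutomaton` in `Pool.Agent.H648R2.T.Def`) reads the base-`k` digits of `n`
in finitely many passes, one move per digit, with finitely many states and finitely many stacks,
makes choices with integer weights and outputs an integer. Its `cost` is `1` if all its stacks are
counters (one stack symbol); for at most one pass it is the product of the numbers of symbols of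
the stacks.

1. Let `ξ` be a real algebraic irrational number and `b ≥ 2`. Suppose
   `ξ = ∑ᵢ Rᵢ · ∏_{A ∈ Mᵢ} (∑ₙ A(n) / bⁿ) + ∑ₙ G(n) / bⁿ` (finite sum over `i`), where the `Rᵢ` are
   rational, `Mᵢ` is a finite list of stack automata which read the digits of `n` in the base
   `kᵢ ≥ 2` and the product of their costs is less than `kᵢ`, and `G` is a polynomially bounded
   sequence of integers. Then for every `C` and all large `m` the blocks of length `m` of `G` that
   start at the places `0, 1, …, C m` are pairwise different.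
2. The digits of `√2`. If `D ≠ 0` is an integer and `D · bit n = ∑ᵢ Rᵢ Aᵢ(n) + G(n)` for all `n`,
   where `bit n` is the `n`-th binary digit of `√2`, `Aᵢ` is a stack automaton which reads `n` in
   base `kᵢ ≥ 2`, of cost less than `kᵢ`, the `Rᵢ` are integers and `G` is any sequence of integers,
   then for every `C` and all large `m` the blocks of length `m` of `G` that start at the places
   `0, 1, …, C m` are pairwise different.

So `G` has more than `C m` blocks of length `m`: it is not `0`, not eventually periodic, not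
automatic and not morphic of linear complexity. The automata may use different input bases.
-/

namespace Pool.Agent.Results.MP_0308e6_nt.SumsOfStackMachineNumbers

open Pool.Agent.H648R2.T

/-- the binary digits of `√2`: the number `0` is the integer part, the others are the digits
after the point -/
noncomputable def bit (n : ℕ) : ℕ := ⌊√2 * 2 ^ n⌋₊ % 2

/-- for every `C` and all large `m` the blocks of length `m` of `G` that start at the places
`0, 1, …, C m` are pairwise different -/
def ManyBlocks (G : ℕ → ℤ) : Prop :=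
  ∀ C : ℕ, ∃ N, ∀ m, N ≤ m → ∀ s t, s < t → t ≤ C * m → ∃ i, i < m ∧ G (s + i) ≠ G (t + i)

lemma bit_zero : bit 0 = 1 := by
  unfold bit
  have h1 : ⌊√2 * 2 ^ 0⌋₊ = 1 := by
    rw [Nat.floor_eq_iff (by positivity)]
    constructor
    · push_cast
      rw [pow_zero, mul_one]
      exact Real.one_le_sqrt.2 (by norm_num)
    · push_cast
      rw [pow_zero, mul_one, Real.sqrt_lt' (by norm_num)]
      norm_num
  rw [h1]

lemma one_le : (1 : ℝ) ≤ √2 := Real.one_le_sqrt.2 (by norm_num)

lemma lt_two : √2 < 2 := by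
  rw [Real.sqrt_lt' (by norm_num)]
  norm_num

lemma mem : √2 - 1 ∈ Set.Ico (0 : ℝ) 1 := by
  constructor
  · linarith [one_le]
  · linarith [lt_two]

lemma bit_succ (n : ℕ) : bit (n + 1) = (Real.digits (√2 - 1) 2 n : ℕ) := by
  unfold bit Real.digits
  rw [Fin.val_ofNat]
  have h : √2 * 2 ^ (n + 1) = (√2 - 1) * ((2 : ℕ) : ℝ) ^ (n + 1) + ((2 ^ (n + 1) : ℕ) : ℝ) := by
    push_cast
    ring
  rw [h, Nat.floor_add_natCast (mul_nonneg mem.1 (by positivity)), pow_succ]
  omega

lemma hasSum_bit : HasSum (fun n => (bit n : ℝ) / 2 ^ n) √2 := by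
  rw [← hasSum_nat_add_iff' 1]
  have h := Real.hasSum_ofDigitsTerm_digits (√2 - 1) (b := 2) (by norm_num) mem
  simp only [Finset.range_one, Finset.sum_singleton, bit_zero, pow_zero, Nat.cast_one, div_one]
  have h2 : (fun n => (bit (n + 1) : ℝ) / 2 ^ (n + 1)) =
      Real.ofDigitsTerm ((√2 - 1).digits 2) := by
    funext n
    rw [bit_succ, Real.ofDigitsTerm, div_eq_mul_inv]
    norm_num
  rw [h2]
  exact h

/-- the value of the digits -/
lemma val_bit : val 2 (fun n => (bit n : ℤ)) = √2 := by
  unfold val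
  rw [← hasSum_bit.tsum_eq]
  push_cast
  rfl

lemma bit_poly : PolyB (fun n => (bit n : ℤ)) := by
  refine PolyB.of_bdd (B := 1) fun n => ?_
  have h : bit n < 2 := Nat.mod_lt _ (by norm_num)
  rw [abs_of_nonneg (by positivity)]
  exact_mod_cast Nat.lt_succ_iff.1 h

lemma val_add {b : ℕ} (hb : 2 ≤ b) {F G : ℕ → ℤ} (hF : PolyB F) (hG : PolyB G) :
    val b (fun n => F n + G n) = val b F + val b G := by
  unfold val
  rw [← (hF.summable hb).tsum_add (hG.summable hb)]
  congr 1
  funext n
  push_cast
  ring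

lemma val_smul {b : ℕ} (a : ℤ) (F : ℕ → ℤ) : val b (fun n => a * F n) = a * val b F := by
  unfold val
  rw [← tsum_mul_left]
  congr 1
  funext n
  push_cast
  ring

lemma val_sum {b : ℕ} (hb : 2 ≤ b) {ι : Type} (s : Finset ι) (F : ι → ℕ → ℤ)
    (h : ∀ i ∈ s, PolyB (F i)) :
    val b (fun n => ∑ i ∈ s, F i n) = ∑ i ∈ s, val b (F i) := by
  classical
  induction s using Finset.induction_on with
  | empty => simp [val]
  | insert a s ha ih =>
    rw [Finset.sum_insert ha, ← ih fun i hi => h i (by simp [hi]),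
      ← val_add hb (h a (by simp)) (PolyB.sum s F fun i hi => h i (by simp [hi]))]
    congr 1
    funext n
    rw [Finset.sum_insert ha]

theorem result :
    (∀ (b : ℕ), 2 ≤ b → ∀ ξ : ℝ, IsAlgebraic ℚ ξ → Irrational ξ →
      ∀ (ι : Type) (_ : Fintype ι) (k : ι → ℕ), (∀ i, 2 ≤ k i) →
      ∀ (M : ι → List StackAutomaton), (∀ i, ((M i).map StackAutomaton.cost).prod < k i) →
      ∀ (R : ι → ℚ) (G : ℕ → ℤ), PolyB G →
      ξ = ∑ i, (R i : ℝ) * ((M i).map fun A => ∑' n, (A.out (k i) n : ℝ) / (b : ℝ) ^ n).prod +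
        ∑' n, (G n : ℝ) / (b : ℝ) ^ n →
      ManyBlocks G) ∧
    (∀ D : ℤ, D ≠ 0 → ∀ (ι : Type) (_ : Fintype ι) (k : ι → ℕ), (∀ i, 2 ≤ k i) →
      ∀ (M : ι → StackAutomaton), (∀ i, (M i).cost < k i) → ∀ (R : ι → ℤ) (G : ℕ → ℤ),
      (∀ n, D * bit n = ∑ i, R i * (M i).out (k i) n + G n) → ManyBlocks G) := by
  have h1 : ∀ (b : ℕ), 2 ≤ b → ∀ ξ : ℝ, IsAlgebraic ℚ ξ → Irrational ξ →
      ∀ (ι : Type) (_ : Fintype ι) (k : ι → ℕ), (∀ i, 2 ≤ k i) →
      ∀ (M : ι → List StackAutomaton), (∀ i, ((M i).map StackAutomaton.cost).prod < k i) →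
      ∀ (R : ι → ℚ) (G : ℕ → ℤ), PolyB G →
      ξ = ∑ i, (R i : ℝ) * ((M i).map fun A => ∑' n, (A.out (k i) n : ℝ) / (b : ℝ) ^ n).prod +
        ∑' n, (G n : ℝ) / (b : ℝ) ^ n →
      ManyBlocks G := by
    intro b hb ξ hξ hirr ι _ k hk M hM R G hG h C
    exact main_machines b hb ξ hξ hirr k hk M hM R G hG h C
  refine ⟨h1, ?_⟩
  intro D hD ι _ k hk M hM R G h
  have hS : PolyB (fun n => ∑ i, R i * (M i).out (k i) n) :=
    PolyB.sum Finset.univ (fun i n => R i * (M i).out (k i) n)
      fun i _ => ((M i).out_poly (hk i)).smul (R i)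
  have hG : PolyB G := by
    have h2 := (bit_poly.smul D).add (hS.smul (-1))
    have h3 : (fun n => D * (bit n : ℤ) + -1 * ∑ i, R i * (M i).out (k i) n) = G := by
      funext n
      rw [h n]
      ring
    rwa [h3] at h2
  have halg : IsAlgebraic ℚ ((D : ℝ) * √2) := by
    have h2 : IsAlgebraic ℚ (√2 : ℝ) := by
      have h3 : IsAlgebraic ℚ ((√2 : ℝ) ^ 2) := by
        rw [Real.sq_sqrt (by norm_num)]
        exact_mod_cast isAlgebraic_natCast (R := ℚ) (A := ℝ) 2
      exact h3.of_pow (by norm_num)
    exact (isAlgebraic_intCast D).mul h2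
  have hirr : Irrational ((D : ℝ) * √2) := irrational_sqrt_two.intCast_mul hD
  refine h1 2 le_rfl _ halg hirr ι inferInstance k hk (fun i => [M i]) (fun i => by simpa using hM i)
    (fun i => (R i : ℚ)) G hG ?_
  have h4 : val 2 (fun n => D * (bit n : ℤ)) = D * √2 := by rw [val_smul, val_bit]
  rw [← h4]
  have h5 : (fun n => D * (bit n : ℤ)) = fun n => ∑ i, R i * (M i).out (k i) n + G n :=
    funext h
  rw [h5, val_add le_rfl hS hG, val_sum le_rfl Finset.univ (fun i n => R i * (M i).out (k i) n)
    fun i _ => ((M i).out_poly (hk i)).smul (R i)]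
  congr 1
  apply Finset.sum_congr rfl
  intro i _
  rw [val_smul]
  simp [val]

end Pool.Agent.Results.MP_0308e6_nt.SumsOfStackMachineNumbers
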