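import Pool.Agent.Q39.SS.Main

/-!
# Sums of two positions of ones in the binary expansion of the square root of two

Let `A` be the set of the positions of the ones in `√2 = ∑ 2 ^ (-a)`, `a ∈ A` (the position `0` is
the integer part). No hypothesis is assumed.

1. For every `ε > 0` there is `C` with
   `(1 - ε) N ≤ |(A + A) ∩ [0, N]| (2 log₂ (|A ∩ [0, N]| / √N) + C)` for all `N ≥ 1`.
   So if there are only `O(√N)` ones up to `N` (their number is at least `√N`), then `A + A` has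
   positive density up to `N`; in any case the density is at least `(1 - ε) / (log₂ N + C)`.
2. For all `K`, `δ ∈ (0, 1]` there are `c > 0`, `N₀` such that for every `N ≥ N₀` and every set `F`
   of natural numbers with `|F + F| ≤ K N ^ (1 - δ)` at least `c N ^ min(δ, 1/2) / log N` of the
   ones of `√2` at the positions `0, …, N` are at positions outside `F`.
3. The inequality of 1 for every base `b` and every positive irrational `x` with
   `∑ m_i x ^ i = D` for some natural numbers `m_i`, `D`, `i ≤ h` (for instance `x ^ h = D`), with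
   the union of the `i`-fold sumsets, `m_i ≠ 0`, of the set of the positions of the nonzero digits.

Proof. Let `r n` be the number of pairs in `A × A` with sum `n`. Since `∑ r n 2 ^ (-n) = 2`, the
remainders `c_n = ∑_{j ≥ 1} r (n + j) 2 ^ (-j)` are positive integers; `c_n = 2 c_{n-1} - r n`.
So `log₂ c` grows by one at every `n ∉ A + A` and is never negative, whence
`N ≤ ∑ log₂ (2 c_{n-1}) + log₂ c_N`, the sum being over the `n ≤ N` in `A + A`. The sum of the
`c_n`, `n ≤ N`, is `O(|A ∩ [0, N]| ^ 2)`, and 1 follows from the concavity of the logarithm. If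
the set `E` of the positions up to `N` outside `F` is small, then `A + A` is covered up to `N` by
`F + F` and `E + A`, which gives 2.
-/

namespace Pool.Agent.Results.MP_0308e6_nt.SumsetOfTheOnes

open Finset Pool.Agent.Q39.SS

/-- the binary digits of `√2`: the number `0` is the integer part, the others are the digits
after the point -/
noncomputable def bit (k : ℕ) : ℕ := ⌊√2 * 2 ^ k⌋₊ % 2

/-- the positions `0, …, N` of the ones of `√2` -/
noncomputable def ones (N : ℕ) : Finset ℕ := {k ∈ range (N + 1) | bit k = 1}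

open Classical in
/-- the numbers `0, …, N` which are sums of two positions of ones of `√2` -/
noncomputable def sumsOfTwo (N : ℕ) : Finset ℕ :=
  {n ∈ range (N + 1) | ∃ i j, bit i = 1 ∧ bit j = 1 ∧ i + j = n}

open Classical in
/-- the numbers `1, …, N` which are sums of `i` positions of nonzero digits of `x` in base `b` for
some `i ≤ h` with `m i ≠ 0` -/
noncomputable def sumsOfPositions (b : ℕ) (x : ℝ) (h : ℕ) (m : ℕ → ℕ) (N : ℕ) : Finset ℕ :=
  {n ∈ Icc 1 N | ∃ i ≤ h, m i ≠ 0 ∧ n ∈ sums i (pos b x)}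

lemma digit_two (k : ℕ) : digit 2 √2 k = bit k := by
  unfold digit bit
  split_ifs with h
  · subst h
    have h1 : ⌊√2⌋₊ = 1 := by
      rw [Nat.floor_eq_iff (by positivity)]
      constructor
      · push_cast
        exact Real.one_le_sqrt.2 (by norm_num)
      · push_cast
        rw [Real.sqrt_lt' (by norm_num)]
        norm_num
    simp [h1]
  · rfl

lemma bit_zero : bit 0 = 1 := by
  rw [← digit_two]
  have h1 : ⌊√2⌋₊ = 1 := by
    rw [Nat.floor_eq_iff (by positivity)]
    constructor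
    · push_cast
      exact Real.one_le_sqrt.2 (by norm_num)
    · push_cast
      rw [Real.sqrt_lt' (by norm_num)]
      norm_num
  simp [digit, h1]

lemma bit_eq_one_iff (k : ℕ) : bit k = 1 ↔ digit 2 √2 k ≠ 0 := by
  rw [digit_two]
  unfold bit
  omega

lemma cnt_eq (N : ℕ) : cnt (digit 2 √2) N = #(ones N) := by
  unfold cnt ones
  congr 1
  ext k
  simp only [mem_filter, bit_eq_one_iff]

lemma one_le_ones (N : ℕ) : 1 ≤ #(ones N) := by
  rw [Nat.one_le_iff_ne_zero, ← Nat.pos_iff_ne_zero, card_pos]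
  exact ⟨0, by simp [ones, bit_zero]⟩

/-- part 1 -/
lemma part_one {ε : ℝ} (hε : 0 < ε) (hε1 : ε < 1) : ∃ C : ℝ, ∀ N : ℕ, 1 ≤ N →
    0 < 2 * Real.logb 2 (#(ones N) / √N) + C ∧
    (1 - ε) * N ≤ #(sumsOfTwo N) * (2 * Real.logb 2 (#(ones N) / √N) + C) := by
  classical
  obtain ⟨C, hC⟩ := main (b := 2) le_rfl (x := √2) (by positivity) irrational_sqrt_two 2
    (fun i => if i = 2 then 1 else 0) 2 (by norm_num [sum_range_succ])
    ⟨2, by simp, by simp, by simp⟩ hε hε1
  refine ⟨C, fun N hN => ?_⟩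
  have h1 := one_le_ones N
  have h2 : (1 : ℝ) ≤ #(ones N) := by exact_mod_cast h1
  have hNp : (0 : ℝ) < N := by exact_mod_cast hN
  obtain ⟨h3, h4⟩ := hC N hN ((sumsOfTwo N).erase 0) (by
    intro n hn1 hn2 ⟨i, hi, hi2, t, ht, hs⟩
    have hi3 : i = 2 := by
      by_contra h
      simp [h] at hi2
    subst hi3
    rw [mem_erase]
    refine ⟨by omega, ?_⟩
    rw [sumsOfTwo, mem_filter, mem_range]
    refine ⟨by omega, t 0, t 1, (bit_eq_one_iff _).2 (ht 0), (bit_eq_one_iff _).2 (ht 1), ?_⟩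
    rw [← hs, Fin.sum_univ_two]) (by rw [cnt_eq]; exact h1)
  rw [cnt_eq] at h3 h4
  have h5 : ((2 : ℕ) : ℝ) * Real.logb ((2 : ℕ) : ℝ) (#(ones N)) - Real.logb ((2 : ℕ) : ℝ) N + C =
      2 * Real.logb 2 (#(ones N) / √N) + C := by
    push_cast
    rw [Real.logb_div (by positivity) (by positivity), Real.sqrt_eq_rpow,
      Real.logb_rpow_eq_mul_logb_of_pos hNp]
    ring
  rw [h5] at h3 h4
  refine ⟨h3, h4.trans (mul_le_mul_of_nonneg_right ?_ h3.le)⟩
  have h6 : 0 ∈ sumsOfTwo N := by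
    rw [sumsOfTwo, mem_filter, mem_range]
    exact ⟨by omega, 0, 0, bit_zero, bit_zero, rfl⟩
  have h7 := card_erase_add_one h6
  have h8 : ((#((sumsOfTwo N).erase 0) : ℕ) : ℝ) + 1 = #(sumsOfTwo N) := by exact_mod_cast h7
  rw [h8]

open scoped Pointwise in
/-- the covering of the sumset -/
lemma cover (N : ℕ) (F : Finset ℕ) :
    #(sumsOfTwo N) ≤ #(F + F) + #(ones N \ F) * (#(F + F) + #(ones N \ F)) := by
  classical
  have h1 : sumsOfTwo N ⊆ (F + F) ∪ ((ones N \ F) + ones N) := by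
    intro n hn
    rw [sumsOfTwo, mem_filter, mem_range] at hn
    obtain ⟨hn, i, j, hi, hj, hij⟩ := hn
    have hi' : i ∈ ones N := by rw [ones, mem_filter, mem_range]; exact ⟨by omega, hi⟩
    have hj' : j ∈ ones N := by rw [ones, mem_filter, mem_range]; exact ⟨by omega, hj⟩
    rw [mem_union, mem_add, mem_add]
    by_cases h2 : i ∈ F
    · by_cases h3 : j ∈ F
      · exact Or.inl ⟨i, h2, j, h3, hij⟩
      · exact Or.inr ⟨j, mem_sdiff.2 ⟨hj', h3⟩, i, hi', by omega⟩
    · exact Or.inr ⟨i, mem_sdiff.2 ⟨hi', h2⟩, j, hj', hij⟩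
  have h2 : #(ones N) ≤ #(F + F) + #(ones N \ F) := by
    have h3 : #(ones N) ≤ #F + #(ones N \ F) := by
      calc #(ones N) ≤ #(F ∪ (ones N \ F)) := card_le_card (by
            intro k hk
            rw [mem_union, mem_sdiff]
            tauto)
        _ ≤ _ := card_union_le _ _
    have h4 : #F ≤ #(F + F) := by
      rcases F.eq_empty_or_nonempty with h5 | h5
      · simp [h5]
      · exact card_le_card_add_left h5
    omega
  calc #(sumsOfTwo N) ≤ #((F + F) ∪ ((ones N \ F) + ones N)) := card_le_card h1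
    _ ≤ #(F + F) + #((ones N \ F) + ones N) := card_union_le _ _
    _ ≤ #(F + F) + #(ones N \ F) * #(ones N) := Nat.add_le_add_left card_add_le _
    _ ≤ _ := Nat.add_le_add_left (Nat.mul_le_mul_left _ h2) _

open scoped Pointwise in
/-- part 2 -/
lemma part_two {K δ : ℝ} (hK : 0 < K) (hδ : 0 < δ) (_hδ1 : δ ≤ 1) :
    ∃ c : ℝ, 0 < c ∧ ∃ N₀ : ℕ, ∀ N : ℕ, N₀ ≤ N → ∀ F : Finset ℕ,
      (#(F + F) : ℝ) ≤ K * (N : ℝ) ^ (1 - δ) →
      c * (N : ℝ) ^ (min δ (1 / 2)) / Real.log N ≤ #(ones N \ F) := by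
  obtain ⟨C, hC⟩ := part_one (ε := 1 / 2) (by norm_num) (by norm_num)
  have hl2 : 0 < Real.log 2 := Real.log_pos (by norm_num)
  set C₂ : ℝ := 1 / Real.log 2 + |2 + C| + 1 with hC₂
  have hC₂p : 0 < C₂ := by positivity
  set c : ℝ := min 1 (1 / (8 * C₂ * (K + 1))) with hc
  have hcp : 0 < c := lt_min one_pos (by positivity)
  have hc1 : c ≤ 1 := min_le_left _ _
  have hc2 : c ^ 2 + K * c ≤ 1 / (8 * C₂) := by
    have h1 : c ≤ 1 / (8 * C₂ * (K + 1)) := min_le_right _ _
    have h2 : c * (K + 1) ≤ 1 / (8 * C₂) := by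
      calc c * (K + 1) ≤ 1 / (8 * C₂ * (K + 1)) * (K + 1) :=
            mul_le_mul_of_nonneg_right h1 (by linarith)
        _ = 1 / (8 * C₂) := by field_simp
    nlinarith
  have hev : ∀ᶠ N : ℕ in Filter.atTop, Real.log N ≤ 1 / (8 * C₂ * K) * (N : ℝ) ^ δ := by
    have h1 := (isLittleO_log_rpow_atTop hδ).bound (show (0 : ℝ) < 1 / (8 * C₂ * K) by positivity)
    have h2 := (tendsto_natCast_atTop_atTop (R := ℝ)).eventually h1
    filter_upwards [h2, Filter.eventually_ge_atTop 1] with N h3 h4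
    have h5 : (1 : ℝ) ≤ N := by exact_mod_cast h4
    rw [Real.norm_of_nonneg (Real.log_nonneg h5), Real.norm_of_nonneg (by positivity)] at h3
    exact h3
  obtain ⟨N₁, hN₁⟩ := Filter.eventually_atTop.1 hev
  refine ⟨c, hcp, max N₁ 3, fun N hN F hF => ?_⟩
  have hN3 : 3 ≤ N := (le_max_right _ _).trans hN
  have hN3' : (3 : ℝ) ≤ N := by exact_mod_cast hN3
  have hNp : (0 : ℝ) < N := by linarith
  have hlog := hN₁ N ((le_max_left _ _).trans hN)
  have hL1 : 1 ≤ Real.log N := by
    rw [Real.le_log_iff_exp_le hNp]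
    linarith [Real.exp_one_lt_d9]
  set L : ℝ := Real.log N with hL
  obtain ⟨hW, hS⟩ := hC N (by omega)
  have hO : (#(ones N) : ℝ) ≤ 2 * N := by
    have h1 : #(ones N) ≤ N + 1 := by
      calc #(ones N) ≤ #(range (N + 1)) := card_le_card (filter_subset _ _)
        _ = N + 1 := card_range _
    have h2 : (#(ones N) : ℝ) ≤ N + 1 := by exact_mod_cast h1
    linarith
  have hO1 : (1 : ℝ) ≤ #(ones N) := by exact_mod_cast one_le_ones N
  have hW2 : 2 * Real.logb 2 (#(ones N) / √N) + C ≤ C₂ * L := by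
    have h1 : Real.logb 2 (#(ones N) / √N) ≤ Real.logb 2 (2 * √N) := by
      refine Real.logb_le_logb_of_le (by norm_num) (by positivity) ?_
      rw [div_le_iff₀ (by positivity)]
      calc (#(ones N) : ℝ) ≤ 2 * N := hO
        _ = 2 * √N * √N := by rw [mul_assoc, Real.mul_self_sqrt hNp.le]
    have h2 : Real.logb 2 (2 * √N) = 1 + L / Real.log 2 / 2 := by
      rw [Real.logb_mul (by norm_num) (by positivity), Real.logb_self_eq_one (by norm_num),
        Real.sqrt_eq_rpow, Real.logb_rpow_eq_mul_logb_of_pos hNp, Real.logb, ← hL]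
      ring
    have h3 : 2 + C ≤ |2 + C| := le_abs_self _
    have h4 : |2 + C| ≤ |2 + C| * L := le_mul_of_one_le_right (abs_nonneg _) hL1
    calc 2 * Real.logb 2 (#(ones N) / √N) + C ≤ 2 * (1 + L / Real.log 2 / 2) + C := by
          rw [← h2]; linarith
      _ = L / Real.log 2 + (2 + C) := by ring
      _ ≤ L / Real.log 2 + |2 + C| * L := by linarith
      _ ≤ C₂ * L := by
          rw [hC₂]
          have : L / Real.log 2 = 1 / Real.log 2 * L := by ring
          rw [this]
          nlinarith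
  have hS2 : (N : ℝ) / 2 ≤ #(sumsOfTwo N) * (C₂ * L) := by
    refine le_trans ?_ (hS.trans (mul_le_mul_of_nonneg_left hW2 (by positivity)))
    linarith
  by_contra hneg
  push Not at hneg
  set e : ℝ := (#(ones N \ F) : ℝ) with he
  set f : ℝ := (#(F + F) : ℝ) with hf
  have he0 : 0 ≤ e := by positivity
  have hf0 : 0 ≤ f := by positivity
  have hcov : (#(sumsOfTwo N) : ℝ) ≤ f + e * (f + e) := by
    rw [he, hf]
    exact_mod_cast cover N F
  have hf1 : f * L ≤ N / (8 * C₂) := by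
    calc f * L ≤ (K * (N : ℝ) ^ (1 - δ)) * (1 / (8 * C₂ * K) * (N : ℝ) ^ δ) :=
          mul_le_mul hF hlog (by linarith) (by positivity)
      _ = ((N : ℝ) ^ (1 - δ) * (N : ℝ) ^ δ) / (8 * C₂) := by field_simp
      _ = N / (8 * C₂) := by
          rw [← Real.rpow_add hNp]
          norm_num
  have hef : e * f * L ≤ c * K * N := by
    have h1 : e * L ≤ c * (N : ℝ) ^ (min δ (1 / 2)) := by
      have := hneg.le
      rw [le_div_iff₀ (by linarith)] at this
      exact this
    calc e * f * L = (e * L) * f := by ring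
      _ ≤ (c * (N : ℝ) ^ (min δ (1 / 2))) * (K * (N : ℝ) ^ (1 - δ)) :=
          mul_le_mul h1 hF hf0 (by positivity)
      _ = c * K * ((N : ℝ) ^ (min δ (1 / 2)) * (N : ℝ) ^ (1 - δ)) := by ring
      _ ≤ c * K * N := by
          refine mul_le_mul_of_nonneg_left ?_ (by positivity)
          rw [← Real.rpow_add hNp]
          calc (N : ℝ) ^ (min δ (1 / 2) + (1 - δ)) ≤ (N : ℝ) ^ (1 : ℝ) := by
                refine Real.rpow_le_rpow_of_exponent_le (by linarith) ?_
                linarith [min_le_left δ (1 / 2)]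
            _ = N := Real.rpow_one _
  have hee : e * e * L ≤ c ^ 2 * N := by
    have h1 : e * L ≤ c * (N : ℝ) ^ (min δ (1 / 2)) := by
      have := hneg.le
      rw [le_div_iff₀ (by linarith)] at this
      exact this
    have h2 : e ≤ c * (N : ℝ) ^ (min δ (1 / 2)) := by
      refine le_trans ?_ h1
      exact le_mul_of_one_le_right he0 hL1
    calc e * e * L = e * (e * L) := by ring
      _ ≤ (c * (N : ℝ) ^ (min δ (1 / 2))) * (c * (N : ℝ) ^ (min δ (1 / 2))) :=
          mul_le_mul h2 h1 (by positivity) (by positivity)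
      _ = c ^ 2 * ((N : ℝ) ^ (min δ (1 / 2)) * (N : ℝ) ^ (min δ (1 / 2))) := by ring
      _ ≤ c ^ 2 * N := by
          refine mul_le_mul_of_nonneg_left ?_ (by positivity)
          rw [← Real.rpow_add hNp]
          calc (N : ℝ) ^ (min δ (1 / 2) + min δ (1 / 2)) ≤ (N : ℝ) ^ (1 : ℝ) := by
                refine Real.rpow_le_rpow_of_exponent_le (by linarith) ?_
                linarith [min_le_right δ (1 / 2)]
            _ = N := Real.rpow_one _
  have h9 : (#(sumsOfTwo N) : ℝ) * L ≤ N / (8 * C₂) + (c ^ 2 + K * c) * N := by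
    calc (#(sumsOfTwo N) : ℝ) * L ≤ (f + e * (f + e)) * L :=
          mul_le_mul_of_nonneg_right hcov (by linarith)
      _ = f * L + e * f * L + e * e * L := by ring
      _ ≤ N / (8 * C₂) + c * K * N + c ^ 2 * N := by linarith
      _ = _ := by ring
  have h10 : (c ^ 2 + K * c) * N ≤ 1 / (8 * C₂) * N := mul_le_mul_of_nonneg_right hc2 hNp.le
  have h11 : (N : ℝ) / 2 ≤ C₂ * (N / (8 * C₂) + 1 / (8 * C₂) * N) := by
    calc (N : ℝ) / 2 ≤ #(sumsOfTwo N) * (C₂ * L) := hS2
      _ = C₂ * (#(sumsOfTwo N) * L) := by ring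
      _ ≤ _ := mul_le_mul_of_nonneg_left (by linarith) hC₂p.le
  have h12 : C₂ * (N / (8 * C₂) + 1 / (8 * C₂) * N) = N / 4 := by field_simp; ring
  rw [h12] at h11
  linarith

open scoped Pointwise in
/-- The result. -/
theorem result :
    -- 1. the sumset of the positions of the ones of `√2` is dense
    (∀ ε : ℝ, 0 < ε → ε < 1 → ∃ C : ℝ, ∀ N : ℕ, 1 ≤ N →
      0 < 2 * Real.logb 2 (#(ones N) / √N) + C ∧
      (1 - ε) * N ≤ #(sumsOfTwo N) * (2 * Real.logb 2 (#(ones N) / √N) + C)) ∧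
    -- 2. many ones are at positions outside every set with a small sumset
    (∀ K δ : ℝ, 0 < K → 0 < δ → δ ≤ 1 → ∃ c : ℝ, 0 < c ∧ ∃ N₀ : ℕ, ∀ N : ℕ, N₀ ≤ N →
      ∀ F : Finset ℕ, (#(F + F) : ℝ) ≤ K * (N : ℝ) ^ (1 - δ) →
        c * (N : ℝ) ^ (min δ (1 / 2)) / Real.log N ≤ #(ones N \ F)) ∧
    -- 3. every base, and every positive irrational `x` with `∑ m_i x ^ i = D`
    (∀ (b : ℕ), 2 ≤ b → ∀ (x : ℝ), 0 < x → Irrational x → ∀ (h : ℕ) (m : ℕ → ℕ) (D : ℕ),
      (∃ i, 1 ≤ i ∧ i ≤ h ∧ m i ≠ 0) → ∑ i ∈ range (h + 1), (m i : ℝ) * x ^ i = D →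
      ∀ ε : ℝ, 0 < ε → ε < 1 → ∃ C : ℝ, ∀ N : ℕ, 1 ≤ N → ∀ A : ℕ,
        A = #{k ∈ range (N + 1) | digit b x k ≠ 0} → 1 ≤ A →
        0 < Real.logb b ((A : ℝ) ^ h / N) + C ∧
        (1 - ε) * N ≤ ((#(sumsOfPositions b x h m N) : ℝ) + 1) *
          (Real.logb b ((A : ℝ) ^ h / N) + C)) := by
  classical
  refine ⟨fun ε h1 h2 => part_one h1 h2, fun K δ h1 h2 h3 => part_two h1 h2 h3, ?_⟩
  intro b hb x hx hi h m D ⟨i, hi1, hi2, hi3⟩ heq ε hε hε1
  obtain ⟨C, hC⟩ := main hb hx hi h m D heq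
    ⟨i, mem_range.2 (by omega), by omega, hi3⟩ hε hε1
  refine ⟨C, fun N hN A hA hA1 => ?_⟩
  have hA2 : cnt (digit b x) N = A := by
    rw [hA]
    unfold cnt
    congr 1
  obtain ⟨h3, h4⟩ := hC N hN (sumsOfPositions b x h m N) (by
    intro n hn1 hn2 hn3
    rw [sumsOfPositions, mem_filter, mem_Icc]
    exact ⟨⟨hn1, hn2⟩, hn3⟩) (by rw [hA2]; exact hA1)
  rw [hA2] at h3 h4
  have hNp : (0 : ℝ) < N := by exact_mod_cast hN
  have hAp : (0 : ℝ) < A := by exact_mod_cast hA1
  have h5 : Real.logb b ((A : ℝ) ^ h / N) = h * Real.logb b A - Real.logb b N := by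
    rw [Real.logb_div (by positivity) (by positivity), Real.logb_pow]
  rw [h5]
  exact ⟨h3, h4⟩

end Pool.Agent.Results.MP_0308e6_nt.SumsetOfTheOnes
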